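import Pool.Agent.H198R3.TPModels

/-!
# The Freiheitssatz fails for transposed Poisson algebras: all characteristics, whole cosets

Over every field of characteristic different from two and for every number `n ≥ 2` of generators
there is one element `s` of the free transposed Poisson algebra `T_n`, outside `T_{n-1}`, which is
annihilated by the fourth power of every element. Hence for every `g` in `T_{n-1}` the element
`f = g + s` is outside `T_{n-1}` and its ideal contains all `v⁴ g`; if the commutative part of `g`
(its image in the polynomial ring) is not zero, the Freiheitssatz fails for `f`.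

The annihilation is the identity of the library of the starting result; new are the matrices over
the integers with which the standard Lie polynomial has an entry `-1`, so that it does not vanish
in any characteristic, and the treatment of all `g`.
-/

set_option autoImplicit false

namespace Pool.Agent.Results.MP_babce1_al.AllCharacteristics

open Pool.Agent.H198R3.TP

universe u

/-- The subalgebra `T_{n-1}` of the free transposed Poisson algebra `T_n` on the generators
`x_0, …, x_{n-1}`: it is generated by all of them except the last one. -/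
def smaller (F : Type u) [Field F] (n : ℕ) : Submodule F (FreeTP F (Fin n)) :=
  subalg F {g | ∃ i : Fin n, (i : ℕ) + 1 < n ∧ g = FreeTP.gen F i}

/-- The element `v⁴ g = v (v (v (v g)))`. -/
def pow4 (F : Type u) [Field F] {n : ℕ} (v g : FreeTP F (Fin n)) : FreeTP F (Fin n) :=
  TPAlg.mul F v (TPAlg.mul F v (TPAlg.mul F v (TPAlg.mul F v g)))

/-- The commutative part: the homomorphism from `T_n` to the polynomial ring in `n` variables
(with zero bracket) which sends the generators to the variables. -/
noncomputable def commPart (F : Type u) [Field F] (n : ℕ) :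
    FreeTP F (Fin n) →ₗ[F] MvPolynomial (Fin n) F :=
  letI : TPAlg F (MvPolynomial (Fin n) F) := commModel F (MvPolynomial (Fin n) F)
  FreeTP.lift (fun i => MvPolynomial.X i)

/-- A `3 × 3` matrix. -/
def A (R : Type u) [Ring R] : Matrix (Fin 3) (Fin 3) R := !![0, 0, 0; 1, 0, 0; 0, 0, 1]

/-- A `3 × 3` matrix. -/
def B (R : Type u) [Ring R] : Matrix (Fin 3) (Fin 3) R := !![0, 1, 0; 0, 0, 1; 0, 0, 0]

theorem st_int : st (A ℤ) ![A ℤ, B ℤ, cm (A ℤ) (B ℤ), cm (A ℤ) (cm (A ℤ) (B ℤ))] 1 2 = -1 := by
  decide +kernel

theorem st_ne (F : Type u) [Field F] :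
    st (A F) ![A F, B F, cm (A F) (B F), cm (A F) (cm (A F) (B F))] ≠ 0 := by
  let f : Matrix (Fin 3) (Fin 3) ℤ →+* Matrix (Fin 3) (Fin 3) F := (Int.castRingHom F).mapMatrix
  have hX : f (A ℤ) = A F := by
    ext i j
    fin_cases i <;> fin_cases j <;> simp [f, A]
  have hY : f (B ℤ) = B F := by
    ext i j
    fin_cases i <;> fin_cases j <;> simp [f, B]
  have h1 : st (A F) ![A F, B F, cm (A F) (B F), cm (A F) (cm (A F) (B F))] =
      f (st (A ℤ) ![A ℤ, B ℤ, cm (A ℤ) (B ℤ), cm (A ℤ) (cm (A ℤ) (B ℤ))]) := by
    rw [map_st, hX]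
    congr 1
    funext k
    fin_cases k
    · exact hX.symm
    · exact hY.symm
    · change cm (A F) (B F) = f (cm (A ℤ) (B ℤ))
      rw [map_cm, hX, hY]
    · change cm (A F) (cm (A F) (B F)) = f (cm (A ℤ) (cm (A ℤ) (B ℤ)))
      rw [map_cm, map_cm, hX, hY]
  intro h0
  rw [h1] at h0
  have h2 := congrArg (fun M => M 1 2) h0
  have h3 : f (st (A ℤ) ![A ℤ, B ℤ, cm (A ℤ) (B ℤ), cm (A ℤ) (cm (A ℤ) (B ℤ))]) 1 2 =
      ((st (A ℤ) ![A ℤ, B ℤ, cm (A ℤ) (B ℤ), cm (A ℤ) (cm (A ℤ) (B ℤ))] 1 2 : ℤ) : F) := rfl
  simp only [h3, st_int] at h2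
  simp at h2

/-- **The Freiheitssatz fails for transposed Poisson algebras over every field of characteristic
different from two, for every number `n ≥ 2` of generators, and in every coset of `T_{n-1}`
elements**: there is one `s` in `T_n`, annihilated by all fourth powers, such that for every `g`
in `T_{n-1}` the element `g + s` is not in `T_{n-1}`, its ideal contains the elements `v⁴ g` of
`T_{n-1}`, for all `v` in `T_{n-1}`, and if the commutative part of `g` is not zero then the ideal
of `g + s` contains a nonzero element of `T_{n-1}`; such `g` exist. -/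
theorem result (F : Type u) [Field F] (h2 : (2 : F) ≠ 0) (n : ℕ) (hn : 2 ≤ n) :
    (∃ g ∈ smaller F n, commPart F n g ≠ 0) ∧
    ∃ s : FreeTP F (Fin n), (∀ v : FreeTP F (Fin n), pow4 F v s = 0) ∧
      ∀ g ∈ smaller F n, g + s ∉ smaller F n ∧
        (∀ v ∈ smaller F n, pow4 F v g ∈ smaller F n ∧ pow4 F v g ∈ ideal F (g + s)) ∧
        (commPart F n g ≠ 0 → ∃ h ∈ smaller F n, h ≠ 0 ∧ h ∈ ideal F (g + s)) := by
  let i0 : Fin n := ⟨0, by omega⟩
  let i1 : Fin n := ⟨n - 1, by omega⟩
  have hne : i0 ≠ i1 := by
    intro h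
    have := congrArg Fin.val h
    simp only [i0, i1] at this
    omega
  let x : FreeTP F (Fin n) := FreeTP.gen F i0
  let y : FreeTP F (Fin n) := FreeTP.gen F i1
  let b : Fin 4 → FreeTP F (Fin n) := ![x, y, TPAlg.br F x y, TPAlg.br F x (TPAlg.br F x y)]
  have hx : x ∈ smaller F n := mem_subalg_of_mem ⟨i0, by simp only [i0]; omega, rfl⟩
  have hcx : commPart F n x = MvPolynomial.X i0 := rfl
  have hmul : ∀ v g : FreeTP F (Fin n), commPart F n (TPAlg.mul F v g) =
      commPart F n v * commPart F n g := by
    intro v g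
    letI : TPAlg F (MvPolynomial (Fin n) F) := commModel F (MvPolynomial (Fin n) F)
    exact FreeTP.lift_mul _ v g
  refine ⟨⟨x, hx, ?_⟩, std F x b, fun v => main_identity F h2 v x b, ?_⟩
  · rw [hcx]
    exact MvPolynomial.X_ne_zero _
  -- `s` is not in the smaller subalgebra
  have hs : std F x b ∉ smaller F n := by
    intro hf
    let M := Matrix (Fin 3) (Fin 3) F
    letI : TPAlg F M := lieModel F M
    let φ : Fin n → M := fun i => if i = i0 then A F else if i = i1 then B F else 0
    let ψ : Fin n → M := fun i => if i = i0 then A F else 0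
    have key : FreeTP.lift φ (std F x b) = FreeTP.lift ψ (std F x b) := by
      refine eq_on_subalg (FreeTP.lift φ) (FreeTP.lift ψ) (FreeTP.lift_mul φ) (FreeTP.lift_br φ)
        (FreeTP.lift_mul ψ) (FreeTP.lift_br ψ) ?_ hf
      rintro s ⟨i, hi, rfl⟩
      rw [FreeTP.lift_gen, FreeTP.lift_gen]
      simp only [φ, ψ]
      by_cases h0 : i = i0
      · rw [if_pos h0, if_pos h0]
      · rw [if_neg h0, if_neg h0, if_neg]
        intro h1
        have := congrArg Fin.val h1
        simp only [i1] at this
        omega
    have e1 : ∀ χ : Fin n → M, FreeTP.lift χ (std F x b) =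
        st (χ i0) ![χ i0, χ i1, cm (χ i0) (χ i1), cm (χ i0) (cm (χ i0) (χ i1))] := by
      intro χ
      rw [lift_std]
      congr 1
      funext k
      fin_cases k <;> rfl
    rw [e1, e1] at key
    have f0 : φ i0 = A F := by simp [φ]
    have f1 : φ i1 = B F := by simp [φ, hne.symm]
    have g0 : ψ i0 = A F := by simp [ψ]
    have g1 : ψ i1 = 0 := by simp [ψ, hne.symm]
    rw [f0, f1, g0, g1] at key
    have z : st (A F) ![A F, 0, cm (A F) 0, cm (A F) (cm (A F) 0)] = 0 := by
      simp [st, l4, cm]
    rw [z] at key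
    exact st_ne F key
  intro g hg
  have hI : ∀ v : FreeTP F (Fin n), pow4 F v g ∈ ideal F (g + std F x b) := by
    intro v
    have h3 : pow4 F v g = pow4 F v (g + std F x b) := by
      unfold pow4
      simp only [mul_add']
      rw [main_identity F h2, add_zero]
    rw [h3]
    exact mul_mem_ideal (mul_mem_ideal (mul_mem_ideal (mul_mem_ideal (mem_ideal_self _) v) v) v) v
  have hS : ∀ v ∈ smaller F n, pow4 F v g ∈ smaller F n := fun v hv =>
    mul_mem_subalg hv (mul_mem_subalg hv (mul_mem_subalg hv (mul_mem_subalg hv hg)))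
  refine ⟨?_, fun v hv => ⟨hS v hv, hI v⟩, fun hc => ⟨pow4 F x g, hS x hx, ?_, hI x⟩⟩
  · intro h
    apply hs
    have := (smaller F n).sub_mem h hg
    rwa [add_sub_cancel_left] at this
  · intro h0
    have h1 := congrArg (commPart F n) h0
    rw [map_zero] at h1
    unfold pow4 at h1
    rw [hmul, hmul, hmul, hmul, hcx] at h1
    have h4 : (MvPolynomial.X i0 : MvPolynomial (Fin n) F) ≠ 0 := MvPolynomial.X_ne_zero _
    simp [h4, hc] at h1

end Pool.Agent.Results.MP_babce1_al.AllCharacteristics
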